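import Pool.Agent.Y760.RT.Stm

/-!
# Project RT: nonvanishing at a finite place
-/

set_option autoImplicit false

namespace Pool.Agent.Y454.RT

open Filter Topology Pool.Agent.TH932.Abs Pool.Agent.TH932.Germs Pool.Agent.TH932.Chi
open Pool.Agent.TH796.AL Pool.Agent.Y760.RT

section key

variable {m : ℕ} {B : Base m} {L : ℕ → ℝ} (hL : Tendsto L atTop atTop)

/-- the subspace theorem for a family in which one member is replaced at every place -/
theorem swap {ι : Type} [Fintype ι] [DecidableEq ι] (e : ι → GG) (i0 : ι)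
    (he : ∀ c : ι → KK L hL, ∑ i, (c i : GG) * e i = 0 → ∀ i, c i = 0)
    (w : Option (Fin m) → ι → ℝ) (hw : ∀ v i, i ≠ i0 → e i ∈ Sv B L v (w v i))
    (hw0 : ∀ i, i ≠ i0 → 0 ≤ ∑ v, w v i)
    (hS : ∀ i, i ≠ i0 → Sint B L (e i))
    (y : Option (Fin m) → GG) (c0 : Option (Fin m) → ι → KK L hL) (hm : ∀ v, c0 v i0 ≠ 0)
    (hy : ∀ v, y v = ∑ j, (c0 v j : GG) * e j) (t : Option (Fin m) → ℝ)
    (ht : ∀ v, y v ∈ Sv B L v (t v)) (hyS : Sint B L (y none)) : ∑ v, t v ≤ 0 := by
  have key := movq_thm m B L hL ι inferInstance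
    (fun v i => if i = i0 then y v else e i) (fun v i => if i = i0 then t v else w v i)
    ?_ ?_ ?_ ?_
  · rw [Finset.sum_comm] at key
    have h1 : ∀ i, ∑ v : Option (Fin m), (if i = i0 then t v else w v i)
        = if i = i0 then ∑ v, t v else ∑ v, w v i := by
      intro i
      split_ifs <;> rfl
    simp only [h1] at key
    rw [← Finset.add_sum_erase _ _ (Finset.mem_univ i0), if_pos rfl] at key
    have h2 : 0 ≤ ∑ x ∈ Finset.univ.erase i0, (if x = i0 then ∑ v, t v else ∑ v, w v x) := by
      refine Finset.sum_nonneg fun i hi => ?_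
      rw [if_neg (Finset.ne_of_mem_erase hi)]
      exact hw0 i (Finset.ne_of_mem_erase hi)
    linarith
  · intro v c hc
    have hA : ∑ i, (c i : GG) * (if i = i0 then y v else e i)
        = (c i0 : GG) * y v + ∑ i ∈ Finset.univ.erase i0, (c i : GG) * e i := by
      rw [← Finset.add_sum_erase _ _ (Finset.mem_univ i0), if_pos rfl]
      congr 1
      exact Finset.sum_congr rfl fun i hi => by rw [if_neg (Finset.ne_of_mem_erase hi)]
    have hC : y v = (c0 v i0 : GG) * e i0 + ∑ i ∈ Finset.univ.erase i0, (c0 v i : GG) * e i := by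
      rw [hy v, ← Finset.add_sum_erase _ _ (Finset.mem_univ i0)]
    have h1 : ∑ i, ((c i0 * c0 v i + (if i = i0 then 0 else c i) : KK L hL) : GG) * e i = 0 := by
      rw [← hc, hA, hC, ← Finset.add_sum_erase _ _ (Finset.mem_univ i0), if_pos rfl, mul_add,
        Finset.mul_sum, add_assoc, ← Finset.sum_add_distrib]
      congr 1
      · push_cast
        ring
      · refine Finset.sum_congr rfl fun i hi => ?_
        rw [if_neg (Finset.ne_of_mem_erase hi)]
        push_cast
        ring
    have h2 := he _ h1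
    have h3 : c i0 = 0 := by
      have := h2 i0
      rw [if_pos rfl, add_zero] at this
      exact (mul_eq_zero.1 this).resolve_right (hm v)
    intro i
    by_cases hi : i = i0
    · rw [hi]; exact h3
    · have := h2 i
      rw [h3, if_neg hi, zero_mul, zero_add] at this
      exact this
  · intro v i
    by_cases hi : i = i0
    · subst hi
      refine ⟨fun j => if j = i then c0 v i / c0 none i else
        c0 v j - c0 v i * c0 none j / c0 none i, ?_⟩
      have h0 : (c0 none i : GG) ≠ 0 := fun h => hm none (Subtype.ext h)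
      have hC : ∀ v, y v = (c0 v i : GG) * e i +
          ∑ j ∈ Finset.univ.erase i, (c0 v j : GG) * e j := by
        intro v
        rw [hy v, ← Finset.add_sum_erase _ _ (Finset.mem_univ i)]
      have hB : ∑ j, ((if j = i then c0 v i / c0 none i else
            c0 v j - c0 v i * c0 none j / c0 none i : KK L hL) : GG) *
            (if j = i then y none else e j)
          = ((c0 v i / c0 none i : KK L hL) : GG) * y none + ∑ j ∈ Finset.univ.erase i,
            ((c0 v j : GG) * e j -
              ((c0 v i / c0 none i : KK L hL) : GG) * ((c0 none j : GG) * e j)) := by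
        rw [← Finset.add_sum_erase _ _ (Finset.mem_univ i), if_pos rfl, if_pos rfl]
        congr 1
        refine Finset.sum_congr rfl fun j hj => ?_
        rw [if_neg (Finset.ne_of_mem_erase hj), if_neg (Finset.ne_of_mem_erase hj)]
        push_cast
        field_simp
      rw [if_pos rfl, hB, Finset.sum_sub_distrib, ← Finset.mul_sum, hC v, hC none]
      push_cast
      field_simp
      ring
    · refine ⟨fun j => if j = i then 1 else 0, ?_⟩
      rw [if_neg hi, Finset.sum_eq_single i]
      · simp [hi]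
      · intro b _ hb
        simp [hb]
      · intro h; exact absurd (Finset.mem_univ _) h
  · intro v i
    by_cases hi : i = i0
    · simp only [if_pos hi]; exact ht v
    · simp only [if_neg hi]; exact hw v i hi
  · intro i
    by_cases hi : i = i0
    · simp only [if_pos hi]; exact hyS
    · simp only [if_neg hi]; exact hS i hi

/-- the values of the character at different points are independent -/
theorem ch_ind (G : Finset (Fin m → ℝ)) (c : G → KK L hL)
    (h : ∑ i : G, (c i : GG) * ch B hL (i : Fin m → ℝ) = 0) : ∀ i, c i = 0 := by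
  have h1 := Pool.Agent.TH147.AL.ev_sum' (B := B) hL (fun _ : G => True)
    (fun g : G => (g : Fin m → ℝ)) c
  simp only [if_true] at h1
  rw [h] at h1
  have h2 := su_thm m B L hL _ h1
  intro i
  have h3 := Pool.Agent.TH147.AL.coeff_sum_eq (fun _ : G => True) (fun g : G => (g : Fin m → ℝ))
    Subtype.val_injective c i trivial
  simp only [if_true] at h3
  rw [h2] at h3
  exact h3.symm

/-- values of the group ring as sums over the support -/
theorem ev_eq (f : Rg m hL) :
    ev B hL f = ∑ i : f.coeff.support, ((f.coeff i : KK L hL) : GG) * ch B hL (i : Fin m → ℝ) := by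
  rw [ev_sum, Finset.sum_coe_sort f.coeff.support
    (fun g => ((f.coeff g : KK L hL) : GG) * ch B hL g)]

/-- a combination of values of the character is not smaller than its terms -/
theorem kp (v0 : Option (Fin m)) (f : Rg m hL) (x : ℝ) (hx : ev B hL f ∈ Sv B L v0 x)
    (g0 : Fin m → ℝ) (hg : f.coeff g0 ≠ 0) : x ≤ lv B v0 g0 := by
  classical
  have hg0 : g0 ∈ f.coeff.support := Finsupp.mem_support_iff.2 hg
  have key := swap (B := B) hL (fun i : f.coeff.support => ch B hL (i : Fin m → ℝ)) ⟨g0, hg0⟩
    (ch_ind hL f.coeff.support) (fun v i => lv B v i) (fun v i _ => ch_mem hL v _)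
    (fun i _ => (lv_sum (i : Fin m → ℝ)).ge) (fun i _ => ch_sint hL _)
    (fun v => if v = v0 then ev B hL f else ch B hL g0)
    (fun v i => if v = v0 then f.coeff i else if (i : Fin m → ℝ) = g0 then 1 else 0) ?_ ?_
    (fun v => if v = v0 then x else lv B v g0) ?_ ?_
  · have h1 := lv_sum (B := B) g0
    rw [← Finset.add_sum_erase _ _ (Finset.mem_univ v0)] at key h1
    have h2 : ∑ v ∈ Finset.univ.erase v0, (if v = v0 then x else lv B v g0) =
        ∑ v ∈ Finset.univ.erase v0, lv B v g0 :=
      Finset.sum_congr rfl fun v hv => if_neg (Finset.ne_of_mem_erase hv)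
    rw [h2, if_pos rfl] at key
    linarith
  · intro v
    by_cases hv : v = v0
    · simp only [if_pos hv]; exact hg
    · simp only [if_neg hv, if_true]; exact one_ne_zero
  · intro v
    by_cases hv : v = v0
    · simp only [if_pos hv]
      exact ev_eq hL f
    · simp only [if_neg hv]
      rw [Finset.sum_eq_single ⟨g0, hg0⟩]
      · simp
      · intro b _ hb
        have : (b : Fin m → ℝ) ≠ g0 := fun h => hb (Subtype.ext h)
        simp [this]
      · intro h; exact absurd (Finset.mem_univ _) h
  · intro v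
    by_cases hv : v = v0
    · simp only [if_pos hv]; rw [hv]; exact hx
    · simp only [if_neg hv]; exact ch_mem hL v _
  · by_cases hv : none = v0
    · simp only [if_pos hv]; exact ev_sint hL f
    · simp only [if_neg hv]; exact ch_sint hL _

/-- the exponents as real numbers -/
def re (g : Fin m →₀ ℕ) : Fin m → ℝ := fun i => (g i : ℝ)

theorem re_inj : Function.Injective (re (m := m)) := by
  intro g h hgh
  ext i
  have h1 : (g i : ℝ) = h i := congrFun hgh i
  exact_mod_cast h1

/-- a polynomial as an element of the group ring -/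
noncomputable def grp (A : MvPolynomial (Fin m) (KK L hL)) : Rg m hL :=
  ∑ g : A.support, AddMonoidAlgebra.single (re (g : Fin m →₀ ℕ)) (A.coeff g)

theorem ch_nat (i : Fin m) (k : ℕ) :
    ch B hL (Pi.single i 1) ^ k = ch B hL (fun j => if j = i then (k : ℝ) else 0) := by
  induction k with
  | zero =>
    rw [pow_zero, ← ch_zero (B := B) hL]
    congr 1
    funext j
    simp
  | succ k ih =>
    rw [pow_succ, ih, ← ch_add]
    congr 1
    funext j
    by_cases h : j = i
    · simp [h]
    · simp [h]

theorem ch_prod (s : Finset (Fin m)) (f : Fin m → (Fin m → ℝ)) :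
    ∏ i ∈ s, ch B hL (f i) = ch B hL (∑ i ∈ s, f i) := by
  classical
  induction s using Finset.induction_on with
  | empty => rw [Finset.prod_empty, Finset.sum_empty, ch_zero]
  | insert a s ha ih => rw [Finset.prod_insert ha, Finset.sum_insert ha, ch_add, ih]

theorem ch_re (g : Fin m →₀ ℕ) :
    g.prod (fun i k => ch B hL (Pi.single i 1) ^ k) = ch B hL (re g) := by
  classical
  rw [Finsupp.prod_fintype _ _ (fun i => pow_zero _)]
  simp only [ch_nat]
  rw [ch_prod]
  congr 1
  funext j
  rw [Finset.sum_apply]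
  simp [re]

theorem phi_eq (A : MvPolynomial (Fin m) (KK L hL)) : phi B hL A = ev B hL (grp hL A) := by
  classical
  unfold phi grp
  rw [MvPolynomial.coe_eval₂Hom, MvPolynomial.eval₂_eq', map_sum,
    ← Finset.sum_coe_sort A.support]
  refine Finset.sum_congr rfl fun g _ => ?_
  rw [ev_single]
  congr 1
  have h1 := ch_re (B := B) hL (g : Fin m →₀ ℕ)
  rw [Finsupp.prod_fintype _ _ (fun i => pow_zero _)] at h1
  exact h1

theorem grp_coeff (A : MvPolynomial (Fin m) (KK L hL)) {g : Fin m →₀ ℕ} (hg : A.coeff g ≠ 0) :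
    (grp hL A).coeff (re g) = A.coeff g := by
  classical
  have hm : g ∈ A.support := MvPolynomial.mem_support_iff.2 hg
  have h3 := Pool.Agent.TH147.AL.coeff_sum_eq (R := KK L hL) (fun _ : A.support => True)
    (fun g : A.support => re (g : Fin m →₀ ℕ)) (re_inj.comp Subtype.val_injective)
    (fun g => A.coeff g) ⟨g, hm⟩ trivial
  simp only [if_true] at h3
  exact h3

/-- a value of a polynomial is not smaller than its terms -/
theorem kp_phi (v : Option (Fin m)) (A : MvPolynomial (Fin m) (KK L hL)) (x : ℝ)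
    (hx : phi B hL A ∈ Sv B L v x) {g : Fin m →₀ ℕ} (hg : A.coeff g ≠ 0) : x ≤ lv B v (re g) := by
  rw [phi_eq] at hx
  refine kp hL v (grp hL A) x hx (re g) ?_
  rw [grp_coeff hL A hg]
  exact hg

end key

/-- splitting off the power of a prime -/
theorem split_q {P : ℕ} (hP : P.Prime) {a : ℚ} (ha : a ≠ 0) :
    ∃ (k u w : ℤ), IsCoprime u (P : ℤ) ∧ IsCoprime w (P : ℤ) ∧ u ≠ 0 ∧
      (w : ℚ) * a = (P : ℚ) ^ k * u := by
  have hPz : Prime (P : ℤ) := Nat.prime_iff_prime_int.1 hP
  have hsp : ∀ n : ℤ, n ≠ 0 → ∃ (e : ℕ) (c : ℤ), n = (P : ℤ) ^ e * c ∧ IsCoprime c (P : ℤ) := by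
    intro n hn
    obtain ⟨c, h1, h2⟩ := (FiniteMultiplicity.of_prime_left hPz hn).exists_eq_pow_mul_and_not_dvd
    exact ⟨_, c, h1, ((hPz.irreducible.coprime_iff_not_dvd).2 h2).symm⟩
  obtain ⟨α, u, hu, huc⟩ := hsp a.num (Rat.num_ne_zero.2 ha)
  obtain ⟨β, w, hw, hwc⟩ := hsp a.den (by exact_mod_cast a.den_ne_zero)
  have hP0 : (P : ℚ) ≠ 0 := by exact_mod_cast hP.ne_zero
  have hden : (a.den : ℚ) = (P : ℚ) ^ β * w := by exact_mod_cast congrArg (fun z : ℤ => (z : ℚ)) hw
  have hnum : (a.num : ℚ) = (P : ℚ) ^ α * u := by exact_mod_cast congrArg (fun z : ℤ => (z : ℚ)) hu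
  have hu0 : u ≠ 0 := by
    rintro rfl
    rw [mul_zero] at hu
    exact (Rat.num_ne_zero.2 ha) hu
  refine ⟨(α : ℤ) - β, u, w, huc, hwc, hu0, ?_⟩
  have h1 : (a.den : ℚ) * a = a.num := by
    rw [mul_comm]
    exact Rat.mul_den_eq_num a
  rw [hden, hnum] at h1
  rw [zpow_sub₀ hP0, zpow_natCast, zpow_natCast]
  have hb : (P : ℚ) ^ β ≠ 0 := pow_ne_zero _ hP0
  field_simp
  linear_combination h1

theorem fin : FinStmt := by
  intro m B hP L hL A i g hg hgi
  by_contra hcon
  obtain ⟨a, ha⟩ := gm_surj (phi B hL A)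
  -- the value is nonzero
  have h0 : phi B hL A ≠ 0 := by
    intro h0
    have h1 : ∀ x : ℝ, x ≤ lv B none (re g) := fun x => kp_phi hL none A x (by
      rw [h0]
      exact (filt_v hL none).zero_mem x) hg
    have := h1 (lv B none (re g) + 1)
    linarith
  rw [← ha, gm_inv] at hcon
  unfold Sv at hcon
  rw [mem_SS] at hcon
  push Not at hcon
  obtain ⟨ε, hε, hcon⟩ := hcon
  have hcon' : ∀ᶠ n in (UU : Filter ℕ), ¬ Rv B (some i) (L n) ε 0 (a n)⁻¹ :=
    hcon
  have hne : ∀ᶠ n in (UU : Filter ℕ), a n ≠ 0 := by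
    apply gm_ne_zero.1
    rw [ha]
    exact h0
  have hmem : phi B hL A ∈ Sv B L (some i) ε := by
    rw [← ha]
    unfold Sv
    rw [mem_SS]
    intro ε' hε'
    filter_upwards [hcon', hne, L_nonneg hL] with n h1 h2 h3
    obtain ⟨k, u, w, hu, hw, hu0, huw⟩ := split_q (hP i) h2
    have hP0 : (B.P i : ℚ) ≠ 0 := B.q0 i
    have hk : ε * L n < k * Real.log (B.P i) := by
      by_contra hk
      rw [not_lt] at hk
      apply h1
      refine ⟨1, u, w, -k, one_ne_zero, ?_, hu, ?_, ?_⟩
      · rw [Int.cast_one, abs_one]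
        exact Real.one_le_exp (by positivity)
      · have hu0' : (u : ℚ) ≠ 0 := by exact_mod_cast hu0
        rw [zpow_neg, Int.cast_one, one_mul]
        have hpk : (B.P i : ℚ) ^ k ≠ 0 := zpow_ne_zero _ hP0
        field_simp
        linear_combination -huw
      · push_cast
        linarith
    refine ⟨1, w, u, k, one_ne_zero, ?_, hw, ?_, ?_⟩
    · rw [Int.cast_one, abs_one]
      exact Real.one_le_exp (by positivity)
    · rw [Int.cast_one, one_mul]
      exact huw
    · have : 0 ≤ ε' * L n := by positivity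
      linarith
  have h1 := kp_phi hL (some i) A ε hmem hg
  have h2 : lv B (some i) (re g) = 0 := by
    change (g i : ℝ) * Real.log (B.P i) = 0
    rw [hgi]
    simp
  rw [h2] at h1
  linarith

end Pool.Agent.Y454.RT
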